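import Pool.Agent.H572R4.Stmts

/-!
Project H572-PI, task D2: computable sets of locations give complemented classes.
-/

set_option autoImplicit false

namespace Pool.Agent.H364R3.PI

open Pool.Agent.Helper446 Pool.Agent.Helper446.Defs Pool.Agent.Helper446.CB
open Pool.Agent.H572R4

/-- strings whose first `true` occurs outside `R` -/
def WR (R : Set ℕ) : Set (List Bool) := {σ | σ.idxOf true < σ.length ∧ σ.idxOf true ∉ R}

/-- points whose first `true`, if any, occurs in `R` -/
def KR (R : Set ℕ) : Set (ℕ → Bool) :=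
  {x | ∀ j, x j = true → (∀ i < j, x i = false) → j ∈ R}

theorem seg_idx {x : ℕ → Bool} {n j : ℕ} (hj : j < n) :
    (seg x n).idxOf true = j ↔ x j = true ∧ ∀ i < j, x i = false := by
  have hl : j < (seg x n).length := by simpa using hj
  have h := List.findIdx_eq (p := fun b => b == true) hl
  have e : (seg x n).idxOf true = (seg x n).findIdx (fun b => b == true) := rfl
  rw [e, h]
  have g : ∀ i (hi : i < (seg x n).length), (seg x n)[i] = x i := by
    intro i hi
    simp [seg]
  constructor
  · rintro ⟨h1, h2⟩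
    refine ⟨?_, ?_⟩
    · have := g j hl
      rw [this] at h1
      simpa using h1
    · intro i hi
      have h3 := h2 i hi
      rw [g i (lt_trans hi hl)] at h3
      simpa using h3
  · rintro ⟨h1, h2⟩
    refine ⟨?_, ?_⟩
    · rw [g j hl]; simpa using h1
    · intro i hi
      rw [g i (lt_trans hi hl)]
      simpa using h2 i hi

theorem KR_eq (R : Set ℕ) : KR R = {x | ∀ n, seg x n ∉ WR R} := by
  ext x
  simp only [KR, WR, Set.mem_ofPred_eq, not_and, not_not, seg_length]
  constructor
  · intro h n hn
    obtain ⟨h1, h2⟩ := (seg_idx hn).1 rfl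
    exact h _ h1 h2
  · intro h j h1 h2
    have e := (seg_idx (x := x) (Nat.lt_succ_self j)).2 ⟨h1, h2⟩
    have := h (j + 1) (by rw [e]; exact Nat.lt_succ_self j)
    rwa [e] at this

theorem WR_re {R : Set ℕ} (hR : CR R) : REPred (fun σ => σ ∈ WR R) := by
  have hi : Computable fun σ : List Bool => σ.idxOf true :=
    (Primrec.list_idxOf (α := Bool)).to_comp.comp (Computable.const true) Computable.id
  have hR' : REPred fun n : ℕ => n ∉ R := ComputablePred.to_re (ComputablePred.not hR)
  exact RE.and (RE.lt hi Computable.list_length) (RE.comp hR' hi)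

theorem KR_pi {R : Set ℕ} (hR : CR R) : IsPi01 (KR R) :=
  isPi01_iff.2 ⟨WR R, WR_re hR, KR_eq R⟩

theorem zz_mem_KR (R : Set ℕ) : zz ∈ KR R := by
  intro j hj
  simp [zz] at hj

theorem xp_mem_KR (R : Set ℕ) (j : ℕ) : xp j ∈ KR R ↔ j ∈ R := by
  constructor
  · intro h
    refine h j (by simp [xp]) ?_
    intro i hi
    simp [xp, hi.ne]
  · intro h i hi _
    have : i = j := by simpa [xp] using hi
    rwa [this]

theorem exists_first {x : ℕ → Bool} (h : x ≠ zz) : ∃ j, x j = true ∧ ∀ i < j, x i = false := by
  classical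
  have : ∃ j, x j = true := by
    by_contra hcon
    push Not at hcon
    exact h (funext fun i => by simpa [zz] using hcon i)
  refine ⟨Nat.find this, Nat.find_spec this, ?_⟩
  intro i hi
  have := Nat.find_min this hi
  simpa using this

theorem KR_inter (R : Set ℕ) : KR R ∩ KR Rᶜ = {zz} := by
  ext x
  constructor
  · rintro ⟨h1, h2⟩
    by_contra hx
    obtain ⟨j, hj, hj'⟩ := exists_first (x := x) hx
    exact h2 j hj hj' (h1 j hj hj')
  · rintro rfl
    exact ⟨zz_mem_KR R, zz_mem_KR _⟩

theorem KR_union (R : Set ℕ) : KR R ∪ KR Rᶜ = Set.univ := by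
  ext x
  simp only [Set.mem_univ, iff_true]
  by_cases hx : x = zz
  · subst hx
    exact Or.inl (zz_mem_KR R)
  · obtain ⟨j, hj, hj'⟩ := exists_first (x := x) hx
    have huniq : ∀ k, x k = true → (∀ i < k, x i = false) → k = j := by
      intro k hk hk'
      rcases lt_trichotomy k j with h | h | h
      · rw [hj' k h] at hk; exact absurd hk (by simp)
      · exact h
      · rw [hk' j h] at hj; exact absurd hj (by simp)
    by_cases hR : j ∈ R
    · left
      intro k hk hk'
      rw [huniq k hk hk']
      exact hR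
    · right
      intro k hk hk'
      rw [huniq k hk hk']
      exact hR

theorem taskD2 : TaskD2 := by
  intro B hB R hR
  have hRc : CR Rᶜ := ComputablePred.not hR
  refine ⟨⟨KR R, KR_pi hR, ?_⟩, ⟨KR Rᶜ, KR_pi hRc, ?_⟩, ?_, ?_, ?_, ?_⟩
  · rw [hB]
    rintro x rfl
    exact zz_mem_KR R
  · rw [hB]
    rintro x rfl
    exact zz_mem_KR _
  · apply Subtype.ext
    exact (KR_inter R).trans hB.symm
  · apply Subtype.ext
    exact KR_union R
  · ext j
    exact xp_mem_KR R j
  · ext j
    exact xp_mem_KR Rᶜ j

end Pool.Agent.H364R3.PI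

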